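import Pool.Agent.helper69.DH.SpecR

/-! Project d2: (MP_5823cb_al), part R, row rMXT: mixing for target sets in a window. -/

set_option autoImplicit false

open Filter Topology MeasureTheory
open scoped commutatorElement

namespace Pool.Agent.helper90.DH

open Pool.Agent.helper64.D2

open Classical in
theorem rMXT_low (P : RQ) (s : ℕ) (A A' Q : Finset ℤ) (h : ∀ m ∈ Q, ∀ i < P.q, rcc P s i m ∈ A → rcc P s i m ∈ A') :
    ∑ m ∈ Q, ((Finset.range P.q).filter (fun i => rcc P s i m ∈ A)).card ≤ ree P s A' Q := by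
  unfold ree
  rw [Finset.card_eq_sum_card_fiberwise (f := Prod.snd) (t := Q)
    (s := (Finset.range P.q ×ˢ Q).filter (fun p => ∃ n ∈ A', |rcc P s p.1 p.2 - n| ≤ 4))
    (by
      intro p hp
      have h1 := (Finset.mem_filter.1 (Finset.mem_coe.1 hp)).1
      exact Finset.mem_coe.2 (Finset.mem_product.1 h1).2)]
  refine Finset.sum_le_sum fun m hm => ?_
  refine Finset.card_le_card_of_injOn (fun i => (i, m)) ?_ ?_
  · intro i hi
    have hi' := Finset.mem_filter.1 (Finset.mem_coe.1 hi)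
    refine Finset.mem_coe.2 (Finset.mem_filter.2 ⟨Finset.mem_filter.2 ⟨Finset.mem_product.2 ⟨hi'.1, hm⟩, ?_⟩, rfl⟩)
    refine ⟨rcc P s i m, h m hm i (Finset.mem_range.1 hi'.1) hi'.2, ?_⟩
    simp
  · intro i _ j _ hij
    exact (Prod.mk.inj hij).1

theorem rMXT (hGEO : rGEO_stmt) : rMXT_stmt := by
  classical
  intro P S hR s A Q κ θ hs1 hsS hθ hA hW hQ hdeg
  have hgeo := (hGEO P S hR).2
  obtain ⟨⟨hq, -, -, -, hs01, -, hd1, -⟩, -, -, hmx⟩ := hR
  have hs0 : P.s0 ≤ s := hs01.trans hs1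
  have hMX := (hmx s hs1 hsS).1
  have hq0 : (0 : ℝ) < P.q := by exact_mod_cast hq
  set A' : Finset ℤ := A.filter (fun n => n / 2 ^ (s - P.ell) = κ - 1 ∨ n / 2 ^ (s - P.ell) = κ ∨ n / 2 ^ (s - P.ell) = κ + 1) with hA'
  have hA'A : A' ⊆ A := Finset.filter_subset _ _
  have hcard : (A'.card : ℝ) ≤ rcw P.ell s (κ - 1) A + rcw P.ell s κ A + rcw P.ell s (κ + 1) A := by
    have h1 : A' ⊆ (A.filter (fun m => m / 2 ^ (s - P.ell) = κ - 1) ∪ A.filter (fun m => m / 2 ^ (s - P.ell) = κ)) ∪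
        A.filter (fun m => m / 2 ^ (s - P.ell) = κ + 1) := by
      intro n hn
      obtain ⟨hnA, hn⟩ := Finset.mem_filter.1 hn
      rcases hn with hn | hn | hn
      · exact Finset.mem_union_left _ (Finset.mem_union_left _ (Finset.mem_filter.2 ⟨hnA, hn⟩))
      · exact Finset.mem_union_left _ (Finset.mem_union_right _ (Finset.mem_filter.2 ⟨hnA, hn⟩))
      · exact Finset.mem_union_right _ (Finset.mem_filter.2 ⟨hnA, hn⟩)
    have h2 := Finset.card_le_card h1
    have h3 := Finset.card_union_le (A.filter (fun m => m / 2 ^ (s - P.ell) = κ - 1) ∪ A.filter (fun m => m / 2 ^ (s - P.ell) = κ))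
      (A.filter (fun m => m / 2 ^ (s - P.ell) = κ + 1))
    have h4 := Finset.card_union_le (A.filter (fun m => m / 2 ^ (s - P.ell) = κ - 1)) (A.filter (fun m => m / 2 ^ (s - P.ell) = κ))
    unfold rcw
    exact_mod_cast h2.trans (h3.trans (Nat.add_le_add_right h4 _))
  have hW' : ∀ κ' : ℤ, (rcw P.ell s κ' A' : ℝ) ≤ 2 ^ 10 * P.d1 * 2 ^ (s - P.ell) := by
    intro κ'
    refine le_trans (Nat.cast_le.2 ?_) (hW κ')
    unfold rcw
    exact Finset.card_le_card (Finset.filter_subset_filter _ hA'A)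
  have hmix := hMX A' Q (fun n hn => hA n (hA'A hn)) hW'
  have hlow := rMXT_low P s A A' Q (by
    intro m hm i hi hmA
    refine Finset.mem_filter.2 ⟨hmA, ?_⟩
    have h1 := ((hgeo s i hs0 hsS hi).2.2.1 m).1
    rw [hQ m hm, abs_le] at h1
    omega)
  have hlow2 : θ * P.q * Q.card ≤ (ree P s A' Q : ℝ) := by
    calc θ * P.q * Q.card = ∑ m ∈ Q, θ * P.q := by rw [Finset.sum_const, nsmul_eq_mul]; ring
      _ ≤ ∑ m ∈ Q, (((Finset.range P.q).filter (fun i => rcc P s i m ∈ A)).card : ℝ) := Finset.sum_le_sum hdeg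
      _ = ((∑ m ∈ Q, ((Finset.range P.q).filter (fun i => rcc P s i m ∈ A)).card : ℕ) : ℝ) := by push_cast; rfl
      _ ≤ _ := by exact_mod_cast hlow
  have hQ0 : (0 : ℝ) ≤ Q.card := Nat.cast_nonneg _
  have hsq : (θ * P.q * Q.card) ^ 2 ≤ (P.q : ℝ) ^ 2 * A'.card * Q.card / 2 ^ 104 :=
    le_trans (pow_le_pow_left₀ (by positivity) hlow2 2) hmix
  refine le_trans ?_ (div_le_div_of_nonneg_right hcard (by positivity))
  rw [le_div_iff₀ (by positivity)]
  rcases hQ0.eq_or_lt with h0 | h0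
  · rw [← h0, zero_mul]
    exact Nat.cast_nonneg _
  · rw [le_div_iff₀ (by positivity)] at hsq
    have h5 : (0 : ℝ) < (P.q : ℝ) ^ 2 * Q.card := by positivity
    refine le_of_mul_le_mul_left ?_ h5
    calc (P.q : ℝ) ^ 2 * Q.card * (Q.card * (2 ^ 104 * θ ^ 2)) = (θ * P.q * Q.card) ^ 2 * 2 ^ 104 := by ring
      _ ≤ (P.q : ℝ) ^ 2 * A'.card * Q.card := hsq
      _ = (P.q : ℝ) ^ 2 * Q.card * A'.card := by ring

end Pool.Agent.helper90.DH
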